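import Pool.Agent.Lib.MP_a49afe_co.Data13
import Pool.Agent.Lib.MP_a49afe_co.Open

/-!
# The least order of a rep-cube containing all eleven types of nets is 13

The pieces `A, …, K` of the polyomino below are congruent to `cubeNet 0`, …, `cubeNet 10`, and
the polyomino folds to a cube of edge `√13`.

```
...E..AAA
EEEEC..A.
ECCCC..A.
.MMC..LA.
JJMMLLLL.
.JJMMKL..
..JJGK...
..GGGKK..
...BGGKH.
.FBBBBKHH
.FFBDDHHI
FF...DHII
.F...DDI.
.....DII.
```
-/

namespace Pool.Agent.Results.MP_a49afe_co.LeastOrder13

open Pool.Agent.Lib.MP_a49afe_co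

/-- The least order of a rep-cube that contains all eleven types is `13`. Moreover, there is one
of order `13` that is a simple polygon, and the lower bound `13` remains true for nets in the
weak sense. -/
theorem result :
    IsLeast {k : ℕ | ∃ (P : Finset Cell) (piece : Fin k → Finset Cell),
      IsRepCube IsCubeNet k P piece ∧ ContainsAllTypes piece} 13 ∧
    (∃ (P : Finset Cell) (piece : Fin 13 → Finset Cell),
      IsRepCube IsCubeNet 13 P piece ∧ IsSimplePolygon P ∧ ContainsAllTypes piece) ∧
    (∀ (k : ℕ) (P : Finset Cell) (piece : Fin k → Finset Cell),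
      IsRepCube IsOpenCubeNet k P piece → ContainsAllTypes piece → 13 ≤ k) := by
  have hlow : ∀ (k : ℕ) (P : Finset Cell) (piece : Fin k → Finset Cell),
      IsRepCube IsOpenCubeNet k P piece → ContainsAllTypes piece → 13 ≤ k := by
    intro k P piece hP ht
    have h11 := eleven_le ht
    have hsum := sum_two_squares_of_openNet hP.pos hP.polyomino hP.net
    by_contra hlt
    have h13 : k < 13 := not_le.1 hlt
    interval_cases k
    · exact not_eleven hsum
    · exact not_twelve hsum
  refine ⟨⟨⟨_, _, Order13.isRepCube, Order13.containsAllTypes⟩, ?_⟩,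
    ⟨_, _, Order13.isRepCube, Order13.isSimplePolygon, Order13.containsAllTypes⟩, hlow⟩
  rintro k ⟨P, piece, hP, ht⟩
  exact hlow k P piece ⟨hP.pos, hP.polyomino, hP.area, hP.net.isOpenCubeNet, hP.disjoint,
    hP.union, hP.piece_polyomino, fun i => (hP.piece_net i).isOpenCubeNet⟩ ht

end Pool.Agent.Results.MP_a49afe_co.LeastOrder13
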