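import Pool.Agent.Lib.MP_a49afe_co.Data20

/-!
# Maekawa's question: a rep-cube of order 20 made of the twenty one-sided nets

The pieces `A, …, T` of the polyomino below are properly congruent to `oneSidedNet 0`, …,
`oneSidedNet 19`; the polyomino folds to a cube of edge `√20 = 2√5`.

```
....GG................
....EGGG...A..RR......
.EEEEGM....ARRRHII....
.EFKKKMMMM.ARBHHHIII..
FFFFDKKKMCAAABJJHHOI..
.FDDDDCCCCQSBBBJJOOOO.
..DTTT.PCQQSSBL.JJ.ONN
.TTT...PPPQQSSL.....N.
........P..Q.SLL....N.
........P....LL....NN.
```
-/

namespace Pool.Agent.Results.MP_a49afe_co.MaekawaOrder20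

open Pool.Agent.Lib.MP_a49afe_co

/-- **Maekawa's question has a positive answer.** The twenty one-sided nets are pairwise not
properly congruent, and there is a rep-cube of order `20` with pieces `piece 0, …, piece 19`
such that `piece s` is properly congruent to the one-sided net number `s` for every `s`. The
polyomino is moreover a simple polygon. -/
theorem result :
    (∀ s s', ProperlyCongruent (oneSidedNet s) (oneSidedNet s') → s = s') ∧
    ∃ (P : Finset Cell) (piece : Fin 20 → Finset Cell),
      IsRepCube IsCubeNet 20 P piece ∧ IsSimplePolygon P ∧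
      ∀ s, ProperlyCongruent (oneSidedNet s) (piece s) :=
  ⟨fun _ _ h => oneSidedNet_unique h (ProperlyCongruent.refl _),
    _, _, Order20.isRepCube, Order20.isSimplePolygon, Order20.oneSided⟩

end Pool.Agent.Results.MP_a49afe_co.MaekawaOrder20
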